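import Pool.Agent.CTP.HPoly

/-!
# ACC for canonical threshold polytopes: Newton nondegenerate hypersurfaces of toric varieties

For all `d`, `s` and every DCC set `Γ` of nonnegative real numbers the canonical threshold
polytopes `P(X, Δ; D_1, ..., D_s)` of the tuples for which `X` is a Newton nondegenerate
hypersurface of dimension `d` of a toric variety and the components of the divisors are cut out
by torus invariant divisors or by the hypersurfaces of a Newton nondegenerate family satisfy the
ascending chain condition under inclusion.
-/

namespace Pool.Agent.Results.MP_afce3b_ag.Hypersurface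

open Pool.Agent.CTP

theorem result (d s : ℕ) (Γ : Set ℝ) (hΓ0 : ∀ x ∈ Γ, 0 ≤ x) (hΓ : IsDCC Γ) :
    ¬ ∃ T : ℕ → HyperTuple d s Γ, ∀ n, (T n).polytope ⊂ (T (n + 1)).polytope :=
  acc_hyper d s Γ hΓ0 hΓ

end Pool.Agent.Results.MP_afce3b_ag.Hypersurface
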